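import Pool.Agent.Helper58.FL.Tools

/-!
# Project FL, module FL-1: homotopy calculus for maps into Kan complexes
-/

open CategoryTheory MonoidalCategory Simplicial Opposite HomotopicalAlgebra CartesianMonoidalCategory

set_option autoImplicit false
set_option linter.unusedVariables false

namespace Pool.Agent.Helper88.FL

open _root_.FL

universe u

/-! ### Vertices of the cylinder -/

/-- `X ⟶ X ⊗ Δ[0]` -/
noncomputable def jj (X : SSet.{u}) : X ⟶ X ⊗ Δ[0] := lift (𝟙 X) (SSet.const (SSet.stdSimplex.obj₀Equiv.{u}.symm 0))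

theorem jj_δ_one (X : SSet.{u}) : jj X ≫ X ◁ (SSet.stdSimplex.δ (1 : Fin 2)) = SSet.ι₀ := by
  rw [SSet.stdSimplex.δ_one_eq_const]; rfl

theorem jj_δ_zero (X : SSet.{u}) : jj X ≫ X ◁ (SSet.stdSimplex.δ (0 : Fin 2)) = SSet.ι₁ := by
  rw [SSet.stdSimplex.δ_zero_eq_const]; rfl

theorem fst_jj (X : SSet.{u}) : fst X _ ≫ jj X = 𝟙 _ := by
  ext k ⟨x, s⟩
  rfl

theorem hom_ext_jj {X Y : SSet.{u}} {a b : X ⊗ Δ[0] ⟶ Y} (h : jj X ≫ a = jj X ≫ b) : a = b := by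
  rw [← Category.id_comp a, ← fst_jj, Category.assoc, h, ← Category.assoc, fst_jj, Category.id_comp]

theorem htpy_iff {X Y : SSet.{u}} (f g : X ⟶ Y) :
    Htpy f g ↔ ∃ h : X ⊗ Δ[1] ⟶ Y, SSet.ι₀ ≫ h = f ∧ SSet.ι₁ ≫ h = g := by
  constructor
  · rintro ⟨H⟩
    exact ⟨H.h, H.h₀, H.h₁⟩
  · rintro ⟨h, h0, h1⟩
    exact ⟨{ h := h, h₀ := h0, h₁ := h1, rel := by ext k ⟨⟨x, hx⟩, s⟩; exact hx.elim }⟩

theorem htpy_refl {X Y : SSet.{u}} (f : X ⟶ Y) : Htpy f f :=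
  (htpy_iff f f).2 ⟨fst _ _ ≫ f, by rw [← Category.assoc, SSet.ι₀_fst, Category.id_comp],
    by rw [← Category.assoc, SSet.ι₁_fst, Category.id_comp]⟩

/-- filling of horns in dimension two in the internal hom -/
theorem fill {X Y : SSet.{u}} (hY : SSet.KanComplex Y) (i : Fin 3)
    (f : ∀ (j : Fin 3), j ≠ i → (X ⊗ Δ[1] ⟶ Y))
    (hf : ∀ (j k : Fin 3) (hj : j ≠ i) (hk : k ≠ i) (hjk : j < k),
      X ◁ SSet.stdSimplex.δ (k.pred (Fin.ne_zero_of_lt hjk)) ≫ f j hj =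
      X ◁ SSet.stdSimplex.δ (j.castPred (Fin.ne_last_of_lt hjk)) ≫ f k hk) :
    ∃ T : X ⊗ Δ[2] ⟶ Y, ∀ (j : Fin 3) (hj : j ≠ i), X ◁ SSet.stdSimplex.δ j ≫ T = f j hj := by
  have hc : SSet.horn.IsCompatible (i := i) (fun (j : Fin 3) (hj : j ≠ i) => MonoidalClosed.curry (f j hj)) := by
    rw [SSet.horn.isCompatible_iff]
    intro j k hj hk hjk
    have := hf j k hj hk hjk
    rw [← MonoidalClosed.curry_natural_left, ← MonoidalClosed.curry_natural_left, this]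
  obtain ⟨φ, hφ⟩ := hc.exists_lift_of_kanComplex
  refine ⟨MonoidalClosed.uncurry φ, fun j hj => ?_⟩
  rw [← MonoidalClosed.uncurry_natural_left, hφ j hj, MonoidalClosed.uncurry_curry]

theorem jj_δ_δ {X Y : SSet.{u}} (a : Fin 2) (b : Fin 3) (T : X ⊗ Δ[2] ⟶ Y) :
    jj X ≫ X ◁ SSet.stdSimplex.δ a ≫ X ◁ SSet.stdSimplex.δ b ≫ T =
      jj X ≫ X ◁ (SSet.stdSimplex.δ a ≫ SSet.stdSimplex.δ b) ≫ T := by
  rw [MonoidalCategory.whiskerLeft_comp, Category.assoc]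

theorem δ10 : (SSet.stdSimplex.δ (1 : Fin 2) ≫ SSet.stdSimplex.δ (0 : Fin 3) : (Δ[0] : SSet.{u}) ⟶ Δ[2]) =
    SSet.stdSimplex.δ (0 : Fin 2) ≫ SSet.stdSimplex.δ (2 : Fin 3) :=
  (SSet.stdSimplex.δ_comp_δ (i := (0 : Fin 2)) (j := (1 : Fin 2)) (by decide)).symm

theorem δ00 : (SSet.stdSimplex.δ (0 : Fin 2) ≫ SSet.stdSimplex.δ (0 : Fin 3) : (Δ[0] : SSet.{u}) ⟶ Δ[2]) =
    SSet.stdSimplex.δ (0 : Fin 2) ≫ SSet.stdSimplex.δ (1 : Fin 3) :=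
  (SSet.stdSimplex.δ_comp_δ (i := (0 : Fin 2)) (j := (0 : Fin 2)) (by decide)).symm

theorem δ11 : (SSet.stdSimplex.δ (1 : Fin 2) ≫ SSet.stdSimplex.δ (1 : Fin 3) : (Δ[0] : SSet.{u}) ⟶ Δ[2]) =
    SSet.stdSimplex.δ (1 : Fin 2) ≫ SSet.stdSimplex.δ (2 : Fin 3) :=
  (SSet.stdSimplex.δ_comp_δ (i := (1 : Fin 2)) (j := (1 : Fin 2)) (by decide)).symm

theorem ι₀_eq {X Y : SSet.{u}} (h : X ⊗ Δ[1] ⟶ Y) : SSet.ι₀ ≫ h = jj X ≫ X ◁ SSet.stdSimplex.δ (1 : Fin 2) ≫ h := by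
  rw [← Category.assoc, jj_δ_one]

theorem ι₁_eq {X Y : SSet.{u}} (h : X ⊗ Δ[1] ⟶ Y) : SSet.ι₁ ≫ h = jj X ≫ X ◁ SSet.stdSimplex.δ (0 : Fin 2) ≫ h := by
  rw [← Category.assoc, jj_δ_zero]

theorem htpy_symm {X Y : SSet.{u}} (hY : SSet.KanComplex Y) {f g : X ⟶ Y} (h : Htpy f g) :
    Htpy g f := by
  obtain ⟨H, H0, H1⟩ := (htpy_iff f g).1 h
  have hc0 : SSet.ι₀ ≫ fst X Δ[1] ≫ f = f := by rw [← Category.assoc, SSet.ι₀_fst, Category.id_comp]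
  have hc1 : SSet.ι₁ ≫ fst X Δ[1] ≫ f = f := by rw [← Category.assoc, SSet.ι₁_fst, Category.id_comp]
  obtain ⟨T, hT⟩ := fill hY (0 : Fin 3) (fun j _ => if j = 2 then H else fst X Δ[1] ≫ f) (by
    intro j k hj hk hjk
    obtain rfl : j = 1 := by omega
    obtain rfl : k = 2 := by omega
    refine hom_ext_jj ?_
    rw [if_neg (by decide), if_pos rfl]
    change jj X ≫ X ◁ SSet.stdSimplex.δ (1 : Fin 2) ≫ fst X Δ[1] ≫ f = jj X ≫ X ◁ SSet.stdSimplex.δ (1 : Fin 2) ≫ H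
    rw [← ι₀_eq, ← ι₀_eq, hc0, H0])
  have h1 := hT 1 (by decide)
  have h2 := hT 2 (by decide)
  rw [if_neg (by decide)] at h1
  rw [if_pos rfl] at h2
  refine (htpy_iff g f).2 ⟨X ◁ SSet.stdSimplex.δ (0 : Fin 3) ≫ T, ?_, ?_⟩
  · rw [ι₀_eq, jj_δ_δ, δ10, ← jj_δ_δ, h2, ← ι₁_eq, H1]
  · rw [ι₁_eq, jj_δ_δ, δ00, ← jj_δ_δ, h1, ← ι₁_eq, hc1]

theorem htpy_trans {X Y : SSet.{u}} (hY : SSet.KanComplex Y) {f g h : X ⟶ Y} (h₁ : Htpy f g)
    (h₂ : Htpy g h) : Htpy f h := by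
  obtain ⟨H, H0, H1⟩ := (htpy_iff f g).1 h₁
  obtain ⟨K, K0, K1⟩ := (htpy_iff g h).1 h₂
  obtain ⟨T, hT⟩ := fill hY (1 : Fin 3) (fun j _ => if j = 2 then H else K) (by
    intro j k hj hk hjk
    obtain rfl : j = 0 := by omega
    obtain rfl : k = 2 := by omega
    refine hom_ext_jj ?_
    rw [if_neg (by decide), if_pos rfl]
    change jj X ≫ X ◁ SSet.stdSimplex.δ (1 : Fin 2) ≫ K = jj X ≫ X ◁ SSet.stdSimplex.δ (0 : Fin 2) ≫ H
    rw [← ι₀_eq, ← ι₁_eq, K0, H1])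
  have h1 := hT 0 (by decide)
  have h2 := hT 2 (by decide)
  rw [if_neg (by decide)] at h1
  rw [if_pos rfl] at h2
  refine (htpy_iff f h).2 ⟨X ◁ SSet.stdSimplex.δ (1 : Fin 3) ≫ T, ?_, ?_⟩
  · rw [ι₀_eq, jj_δ_δ, δ11, ← jj_δ_δ, h2, ← ι₀_eq, H0]
  · rw [ι₁_eq, jj_δ_δ, ← δ00, ← jj_δ_δ, h1, ← ι₁_eq, K1]

theorem htpy_post {X Y Z : SSet.{u}} {f f' : X ⟶ Y} (h : Htpy f f') (g : Y ⟶ Z) : Htpy (f ≫ g) (f' ≫ g) := by
  obtain ⟨H, H0, H1⟩ := (htpy_iff f f').1 h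
  exact (htpy_iff _ _).2 ⟨H ≫ g, by rw [← Category.assoc, H0], by rw [← Category.assoc, H1]⟩

theorem htpy_pre {X Y Z : SSet.{u}} (f : X ⟶ Y) {g g' : Y ⟶ Z} (h : Htpy g g') : Htpy (f ≫ g) (f ≫ g') := by
  obtain ⟨H, H0, H1⟩ := (htpy_iff g g').1 h
  refine (htpy_iff _ _).2 ⟨f ▷ _ ≫ H, ?_, ?_⟩
  · rw [← Category.assoc, SSet.ι₀_comp, Category.assoc, H0]
  · rw [← Category.assoc, SSet.ι₁_comp, Category.assoc, H1]

theorem htpy_comp {X Y Z : SSet.{u}} (hZ : SSet.KanComplex Z) {f f' : X ⟶ Y} {g g' : Y ⟶ Z}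
    (h₁ : Htpy f f') (h₂ : Htpy g g') : Htpy (f ≫ g) (f' ≫ g') :=
  htpy_trans hZ (htpy_post h₁ g) (htpy_pre f' h₂)

theorem hoEq_of_isIso {X Y : SSet.{u}} (f : X ⟶ Y) [IsIso f] : HoEq f := by
  refine ⟨inv f, ?_, ?_⟩
  · rw [IsIso.hom_inv_id]; exact htpy_refl _
  · rw [IsIso.inv_hom_id]; exact htpy_refl _

theorem hoEq_comp {X Y Z : SSet.{u}} (hX : SSet.KanComplex X) (hY : SSet.KanComplex Y)
    (hZ : SSet.KanComplex Z) {f : X ⟶ Y} {g : Y ⟶ Z} (hf : HoEq f) (hg : HoEq g) :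
    HoEq (f ≫ g) := by
  obtain ⟨f', h1, h2⟩ := hf
  obtain ⟨g', h3, h4⟩ := hg
  refine ⟨g' ≫ f', ?_, ?_⟩
  · have := htpy_pre f (htpy_post h3 f')
    rw [Category.id_comp, Category.assoc] at this
    rw [Category.assoc]
    exact htpy_trans hX this h1
  · have := htpy_pre g' (htpy_post h2 g)
    rw [Category.id_comp, Category.assoc] at this
    rw [Category.assoc]
    exact htpy_trans hZ this h4

theorem hoEq_of_comp_left {X Y Z : SSet.{u}} (hX : SSet.KanComplex X) (hY : SSet.KanComplex Y)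
    (hZ : SSet.KanComplex Z) {f : X ⟶ Y} {g : Y ⟶ Z} (hf : HoEq f) (hfg : HoEq (f ≫ g)) :
    HoEq g := by
  obtain ⟨f', h1, h2⟩ := hf
  obtain ⟨q, h3, h4⟩ := hfg
  refine ⟨q ≫ f, ?_, ?_⟩
  · -- g q f ~ f' f g q f ~ f' f ~ 1
    have a1 : Htpy (g ≫ q ≫ f) ((f' ≫ f) ≫ g ≫ q ≫ f) := by
      have := htpy_symm hY (htpy_post h2 (g ≫ q ≫ f))
      rw [Category.id_comp] at this
      exact this
    have a2 : Htpy ((f' ≫ f) ≫ g ≫ q ≫ f) (f' ≫ f) := by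
      have := htpy_pre f' (htpy_post h3 f)
      rw [Category.id_comp] at this
      simpa only [Category.assoc] using this
    exact htpy_trans hY a1 (htpy_trans hY a2 h2)
  · rw [Category.assoc]; exact h4

theorem hoEq_of_comp_right {X Y Z : SSet.{u}} (hX : SSet.KanComplex X) (hY : SSet.KanComplex Y)
    (hZ : SSet.KanComplex Z) {f : X ⟶ Y} {g : Y ⟶ Z} (hg : HoEq g) (hfg : HoEq (f ≫ g)) :
    HoEq f := by
  obtain ⟨g', h1, h2⟩ := hg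
  obtain ⟨q, h3, h4⟩ := hfg
  refine ⟨g ≫ q, ?_, ?_⟩
  · rw [← Category.assoc]; exact h3
  · -- g q f ~ g q f g g' ~ g g' ~ 1
    have a1 : Htpy (g ≫ q ≫ f) ((g ≫ q ≫ f) ≫ g ≫ g') := by
      have := htpy_symm hY (htpy_pre (g ≫ q ≫ f) h1)
      rw [Category.comp_id] at this
      exact this
    have a2 : Htpy ((g ≫ q ≫ f) ≫ g ≫ g') (g ≫ g') := by
      have := htpy_pre g (htpy_post h4 g')
      rw [Category.id_comp] at this
      simpa only [Category.assoc] using this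
    rw [Category.assoc]
    exact htpy_trans hY a1 (htpy_trans hY a2 h1)

theorem hoEq_of_htpy {X Y : SSet.{u}} (hX : SSet.KanComplex X) (hY : SSet.KanComplex Y)
    {f g : X ⟶ Y} (h : Htpy f g) (hf : HoEq f) : HoEq g := by
  obtain ⟨f', h1, h2⟩ := hf
  exact ⟨f', htpy_trans hX (htpy_post (htpy_symm hY h) f') h1, htpy_trans hY (htpy_pre f' (htpy_symm hY h)) h2⟩

/-- Isomorphic maps (no Kan hypothesis needed). -/
theorem hoEq_of_arrow_iso {X Y X' Y' : SSet.{u}} {f : X ⟶ Y} {f' : X' ⟶ Y'} (e : X ≅ X')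
    (e' : Y ≅ Y') (h : f ≫ e'.hom = e.hom ≫ f') (hf : HoEq f) : HoEq f' := by
  obtain ⟨g, h1, h2⟩ := hf
  obtain rfl : f' = e.inv ≫ f ≫ e'.hom := by rw [h, Iso.inv_hom_id_assoc]
  refine ⟨e'.inv ≫ g ≫ e.hom, ?_, ?_⟩
  · have := htpy_pre e.inv (htpy_post h1 e.hom)
    rw [Category.id_comp, Iso.inv_hom_id] at this
    change Htpy _ _
    simpa only [Category.assoc, Iso.hom_inv_id_assoc] using this
  · have := htpy_pre e'.inv (htpy_post h2 e'.hom)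
    rw [Category.id_comp, Iso.inv_hom_id] at this
    change Htpy _ _
    simpa only [Category.assoc, Iso.hom_inv_id_assoc] using this

/-! ### Universe lift -/

/-- a map between lifted simplicial sets, lowered -/
def dn {X Y : SSet.{0}} (g : SSet.uliftFunctor.{1, 0}.obj X ⟶ SSet.uliftFunctor.{1, 0}.obj Y) : X ⟶ Y where
  app k := ↾ fun x => (g.app k (ULift.up x)).down
  naturality k l α := by
    ext x
    exact congrArg ULift.down (sset_nat g α (show (SSet.uliftFunctor.{1, 0}.obj X).obj k from ULift.up x))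

theorem dn_comp {X Y Z : SSet.{0}} (g : SSet.uliftFunctor.{1, 0}.obj X ⟶ SSet.uliftFunctor.{1, 0}.obj Y)
    (h : SSet.uliftFunctor.{1, 0}.obj Y ⟶ SSet.uliftFunctor.{1, 0}.obj Z) : dn (g ≫ h) = dn g ≫ dn h := rfl

theorem dn_map {X Y : SSet.{0}} (f : X ⟶ Y) : dn (SSet.uliftFunctor.{1, 0}.map f) = f := rfl

theorem map_dn {X Y : SSet.{0}} (g : SSet.uliftFunctor.{1, 0}.obj X ⟶ SSet.uliftFunctor.{1, 0}.obj Y) :
    SSet.uliftFunctor.{1, 0}.map (dn g) = g := rfl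

/-- a homotopy, lifted -/
noncomputable def upH {X Y : SSet.{0}} (H : X ⊗ Δ[1] ⟶ Y) :
    SSet.uliftFunctor.{1, 0}.obj X ⊗ Δ[1] ⟶ SSet.uliftFunctor.{1, 0}.obj Y where
  app k := ↾ fun z => ULift.up (H.app k (z.1.down, ULift.up z.2.down))
  naturality k l α := by
    ext ⟨x, t⟩
    exact congrArg ULift.up (sset_nat H α (show (X ⊗ Δ[1] : SSet.{0}).obj k from (x.down, ULift.up t.down)))

/-- a homotopy, lowered -/
noncomputable def dnH {X Y : SSet.{0}} (H : SSet.uliftFunctor.{1, 0}.obj X ⊗ Δ[1] ⟶ SSet.uliftFunctor.{1, 0}.obj Y) :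
    X ⊗ Δ[1] ⟶ Y where
  app k := ↾ fun z => (H.app k (ULift.up z.1, ULift.up z.2.down)).down
  naturality k l α := by
    ext ⟨x, t⟩
    exact congrArg ULift.down (sset_nat H α
      (show (SSet.uliftFunctor.{1, 0}.obj X ⊗ Δ[1] : SSet.{1}).obj k from (ULift.up x, ULift.up t.down)))

theorem htpy_up {X Y : SSet.{0}} {f g : X ⟶ Y} (h : Htpy f g) :
    Htpy (SSet.uliftFunctor.{1, 0}.map f) (SSet.uliftFunctor.{1, 0}.map g) := by
  obtain ⟨H, H0, H1⟩ := (htpy_iff f g).1 h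
  refine (htpy_iff _ _).2 ⟨upH H, ?_, ?_⟩
  · rw [← H0]; rfl
  · rw [← H1]; rfl

theorem htpy_dn {X Y : SSet.{0}} {f g : SSet.uliftFunctor.{1, 0}.obj X ⟶ SSet.uliftFunctor.{1, 0}.obj Y}
    (h : Htpy f g) : Htpy (dn f) (dn g) := by
  obtain ⟨H, H0, H1⟩ := (htpy_iff f g).1 h
  refine (htpy_iff _ _).2 ⟨dnH H, ?_, ?_⟩
  · rw [← H0]; rfl
  · rw [← H1]; rfl

/-- The universe lift reflects and preserves homotopy equivalences. -/
theorem hoEq_ulift_iff {X Y : SSet.{0}} (f : X ⟶ Y) :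
    HoEq (SSet.uliftFunctor.{1, 0}.map f) ↔ HoEq f := by
  constructor
  · rintro ⟨g, h1, h2⟩
    exact ⟨dn g, htpy_dn h1, htpy_dn h2⟩
  · rintro ⟨g, h1, h2⟩
    exact ⟨SSet.uliftFunctor.{1, 0}.map g, htpy_up h1, htpy_up h2⟩

end Pool.Agent.Helper88.FL
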